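import Pool.Agent.Lib.MP_6ec4b3_lc.Interfaces

/-!
# The size of the instances is polynomial
-/

namespace Pool.Agent.Polya.H75

open Pool.Agent.Polya

/-- The bound for the number of blocks. -/
theorem mmx_bound (k c h x : ℕ) (hx : 4 * c + 6 ≤ x) (hh : x ≤ h) :
    4 * mmx k c h ≤ h * x ^ 2 *
      (4 * (k * (3 + 6 * (k * (k + 1) * (k ^ 2 + 3))) + 6 * (k * (k + 1) * (k ^ 2 + 3)))) := by
  unfold mmx nblocks tc lmx lf tf wf
  set C := k * (k + 1) * (k ^ 2 + 3) with hC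
  have hw : 4 * c + 2 * h + 5 + 1 ≤ 3 * h := by omega
  have hw' : 4 * c + 2 * h + 5 ≤ 3 * h := by omega
  have hx4 : 4 * c ≤ x := by omega
  have hx1 : 1 ≤ x := by omega
  have e1 : C * (4 * c + 2 * h + 5 + 1) ≤ C * (3 * h) := Nat.mul_le_mul_left _ hw
  have e2 : C * (4 * c + 2 * h + 5 + 1) * (4 * c) ≤ C * (3 * h) * x := Nat.mul_le_mul e1 hx4
  have e3 : 4 * c + 2 * h + 5 + 2 * (C * (4 * c + 2 * h + 5 + 1) * (4 * c)) ≤
      h * x * (3 + 6 * C) := by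
    calc 4 * c + 2 * h + 5 + 2 * (C * (4 * c + 2 * h + 5 + 1) * (4 * c))
        ≤ 3 * h * x + 2 * (C * (3 * h) * x) := by
          refine Nat.add_le_add ?_ (Nat.mul_le_mul_left _ e2)
          exact hw'.trans (Nat.le_mul_of_pos_right _ hx1)
      _ = h * x * (3 + 6 * C) := by ring
  have e4 : 4 * c * (k * (4 * c + 2 * h + 5 + 2 * (C * (4 * c + 2 * h + 5 + 1) * (4 * c)))) ≤
      x * (k * (h * x * (3 + 6 * C))) :=
    Nat.mul_le_mul hx4 (Nat.mul_le_mul_left _ e3)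
  have e5 : 4 * c * (4 * c) * (C * (4 * c + 2 * h + 5 + 1)) ≤ x * x * (C * (3 * h)) :=
    Nat.mul_le_mul (Nat.mul_le_mul hx4 hx4) e1
  calc _ ≤ 4 * (x * (k * (h * x * (3 + 6 * C))) + 2 * (x * x * (C * (3 * h)))) := by
        refine Nat.mul_le_mul_left _ (Nat.add_le_add e4 (Nat.mul_le_mul_left _ e5))
    _ = _ := by ring

theorem rate : RATE := by
  intro k δ hδ0 hδ1
  obtain ⟨K, hK⟩ := exists_nat_gt (3 / δ)
  set C0 := 4 * (k * (3 + 6 * (k * (k + 1) * (k ^ 2 + 3))) + 6 * (k * (k + 1) * (k ^ 2 + 3)))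
    with hC0
  refine ⟨C0 + 6, K, fun c hc m hm => ?_⟩
  set x := 4 * c + (C0 + 6) with hx
  have hKpos : K ≠ 0 := by
    rintro rfl
    have : 0 < 3 / δ := by positivity
    simp at hK
    linarith
  have hxh : x ≤ x ^ K := Nat.le_self_pow hKpos x
  have h1 : m ≤ x ^ (K + 3) := by
    refine hm.trans ((mmx_bound k c (x ^ K) x (by omega) hxh).trans ?_)
    rw [← hC0]
    calc x ^ K * x ^ 2 * C0 ≤ x ^ K * x ^ 2 * x := Nat.mul_le_mul_left _ (by omega)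
      _ = x ^ (K + 3) := by ring
  have hx1 : (1 : ℝ) ≤ (x : ℝ) := by
    have : 1 ≤ x := by omega
    exact_mod_cast this
  have h2 : (m : ℝ) ≤ (x : ℝ) ^ ((K : ℝ) + 3) := by
    have : (m : ℝ) ≤ ((x ^ (K + 3) : ℕ) : ℝ) := by exact_mod_cast h1
    refine this.trans (le_of_eq ?_)
    rw [Nat.cast_pow, ← Real.rpow_natCast]
    push_cast
    rfl
  have h3 : (m : ℝ) ^ (1 - δ) ≤ ((x : ℝ) ^ ((K : ℝ) + 3)) ^ (1 - δ) :=
    Real.rpow_le_rpow (by positivity) h2 (by linarith)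
  refine h3.trans ?_
  rw [← Real.rpow_mul (by linarith)]
  have h4 : ((K : ℝ) + 3) * (1 - δ) ≤ K := by
    have : 3 < K * δ := by
      rwa [div_lt_iff₀ hδ0] at hK
    nlinarith
  calc (x : ℝ) ^ (((K : ℝ) + 3) * (1 - δ)) ≤ (x : ℝ) ^ (K : ℝ) :=
        Real.rpow_le_rpow_of_exponent_le hx1 h4
    _ = ((x ^ K : ℕ) : ℝ) := by
        rw [Real.rpow_natCast]
        push_cast
        rfl

end Pool.Agent.Polya.H75
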